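import Pool.Agent.Helper6.LVarP

set_option autoImplicit false

namespace Pool.Agent.Results.MP_7f0386_al.ProductNotFinitelyBased

open Pool.Agent.Helper6.LVar

/-- **Products of finitely based varieties of `ℓ`-groups need not be finitely based.**
There are finite sets `E₁`, `E₂` of `ℓ`-group identities such that the class of all `ℓ`-groups
that have an `ℓ`-ideal `N` with `N ⊨ E₁` and `G ⧸ N ⊨ E₂` is not defined by any finite set of
`ℓ`-group identities. -/
theorem result : ∃ E₁ E₂ : Set (LTerm × LTerm), E₁.Finite ∧ E₂.Finite ∧
    ¬ ∃ E : Set (LTerm × LTerm), E.Finite ∧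
      ∀ (G : Type) [Group G] [Lattice G] [MulLeftMono G] [MulRightMono G],
        Satisfies E G ↔ InProduct E₁ E₂ G :=
  main

end Pool.Agent.Results.MP_7f0386_al.ProductNotFinitelyBased
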